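import Mathlib

set_option autoImplicit false

open Finset ComplexConjugate

namespace Pool.Agent.Results.MP_6d480e_an.TwoClasses

/-- A finite subset `E` of a finite abelian group is extreme if there are complex numbers `c x` of modulus one on
`E` (and zero off `E`) such that the measure `μ = ∑ c x δ_x` satisfies `μ * μ~ = |E| δ_0`. -/
def IsExtreme {G : Type} [AddCommGroup G] [Fintype G] [DecidableEq G] (E : Finset G) : Prop :=
  ∃ c : G → ℂ, (∀ x ∈ E, ‖c x‖ = 1) ∧ (∀ x, x ∉ E → c x = 0) ∧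
    ∀ d : G, ∑ x, c (x + d) * conj (c x) = if d = 0 then (E.card : ℂ) else 0

/-- the first sequence (cross-correlation of an m-sequence of length 127 with its decimation by 3) -/
def v : List ℤ := [1, 0, 0, 0, 0, 0, 0, 1, 0, 0, 0, 0, 0, 1, 1, 0, 0, 0, 0, -1, 0, -1, 0, 0, 0, -1, 1, -1, 1, 0, 
  0, -1, 0, 0, 0, 1, 0, -1, -1, 0, 0, -1, -1, 1, 0, 1, 0, 1, 0, 0, -1, -1, 1, 1, -1, 0, 1, 0, 0, 
  0, 0, 1, -1, 1, 0, 0, 0, 1, 0, 0, 1, 0, 0, -1, -1, 0, -1, -1, 0, -1, 0, 1, -1, 0, -1, 1, 1, 1, 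
  0, -1, 1, 0, 0, 0, 1, 1, 0, 1, 0, 0, -1, 0, -1, -1, 1, 0, 1, 1, -1, 0, 0, 1, 1, 0, 0, -1, 0, 
  1, 0, 1, 0, -1, 1, 1, -1, 1, 1]

/-- the second sequence (decimation by 23) -/
def w : List ℤ := [1, 1, 1, 0, 1, 0, 0, 0, 1, 0, 0, 0, 0, 0, 0, 1, 1, 0, 0, -1, 0, 1, 0, -1, 0, -1, 0, 1, 0, 0, 
  1, 1, 1, 0, 0, 0, 0, 1, -1, 0, 0, 1, 1, 0, 0, 0, -1, -1, 0, 0, -1, 1, 0, 0, 1, -1, 0, -1, 0, 
  -1, 1, -1, 1, 0, 1, 0, 0, 0, 0, 0, 0, 1, 0, -1, 1, -1, -1, 1, 0, 1, 0, 0, 1, 0, 1, 0, 0, -1, 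
  0, 1, 0, -1, -1, -1, -1, 0, 0, 0, 0, 1, -1, -1, 1, 1, 0, 0, 0, -1, 1, -1, -1, 0, 0, 1, -1, 1, 
  0, -1, -1, 0, 1, 1, -1, 0, 1, 0, 0]

theorem v_corr : ∀ s ∈ range 127, s ≠ 0 →
    ∑ i ∈ range 127, v.getD ((i + s) % 127) 0 * v.getD i 0 = 0 := by
  decide +kernel

theorem w_corr : ∀ s ∈ range 127, s ≠ 0 →
    ∑ i ∈ range 127, w.getD ((i + s) % 127) 0 * w.getD i 0 = 0 := by
  decide +kernel

theorem v_vals : ∀ i ∈ range 127, v.getD i 0 = 0 ∨ v.getD i 0 = 1 ∨ v.getD i 0 = -1 := by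
  decide +kernel

theorem w_vals : ∀ i ∈ range 127, w.getD i 0 = 0 ∨ w.getD i 0 = 1 ∨ w.getD i 0 = -1 := by
  decide +kernel

theorem v_card : ∑ i ∈ range 127, v.getD i 0 * v.getD i 0 = 64 := by
  decide +kernel

theorem w_card : ∑ i ∈ range 127, w.getD i 0 * w.getD i 0 = 64 := by
  decide +kernel

/-- the support of the first sequence is a difference set -/
theorem v_diff : ∀ s ∈ range 127, s ≠ 0 →
    ∑ i ∈ range 127, v.getD ((i + s) % 127) 0 ^ 2 * v.getD i 0 ^ 2 = 32 := by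
  decide +kernel

/-- the support of the second sequence is not a difference set -/
theorem w_diff : ∑ i ∈ range 127, w.getD ((i + 3) % 127) 0 ^ 2 * w.getD i 0 ^ 2 = 28 := by
  decide +kernel

theorem sumZ (g : ℕ → ℤ) : ∑ t : ZMod 127, g t.val = ∑ i ∈ range 127, g i :=
  Fin.sum_univ_eq_sum_range g 127

/-- the support of a sequence, as a subset of `ZMod 127` -/
def supp (l : List ℤ) : Finset (ZMod 127) := univ.filter fun t => l.getD t.val 0 ≠ 0

theorem mem_supp (l : List ℤ) (t : ZMod 127) : t ∈ supp l ↔ l.getD t.val 0 ≠ 0 := by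
  simp [supp]

theorem sq_eq (l : List ℤ) (h : ∀ i ∈ range 127, l.getD i 0 = 0 ∨ l.getD i 0 = 1 ∨ l.getD i 0 = -1)
    (t : ZMod 127) : l.getD t.val 0 ^ 2 = if t ∈ supp l then 1 else 0 := by
  have hlt : t.val ∈ range 127 := mem_range.2 (ZMod.val_lt t)
  by_cases ht : t ∈ supp l
  · rw [if_pos ht]
    rw [mem_supp] at ht
    rcases h _ hlt with h0 | h0 | h0
    · exact absurd h0 ht
    · rw [h0]; norm_num
    · rw [h0]; norm_num
  · rw [if_neg ht]
    rw [mem_supp, not_not] at ht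
    rw [ht]; norm_num

theorem card_supp (l : List ℤ) (h : ∀ i ∈ range 127, l.getD i 0 = 0 ∨ l.getD i 0 = 1 ∨ l.getD i 0 = -1)
    (hc : ∑ i ∈ range 127, l.getD i 0 * l.getD i 0 = 64) : (supp l).card = 64 := by
  have h1 : ((supp l).card : ℤ) = ∑ t : ZMod 127, if t ∈ supp l then (1 : ℤ) else 0 := by
    rw [Finset.sum_ite_mem]; simp
  have h2 : ∑ t : ZMod 127, (if t ∈ supp l then (1 : ℤ) else 0) = 64 := by
    rw [← hc, ← sumZ (fun i => l.getD i 0 * l.getD i 0)]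
    refine Finset.sum_congr rfl fun t _ => ?_
    rw [← sq_eq l h t, sq]
  have h3 : ((supp l).card : ℤ) = 64 := h1.trans h2
  exact_mod_cast h3

theorem extreme_supp (l : List ℤ) (h : ∀ i ∈ range 127, l.getD i 0 = 0 ∨ l.getD i 0 = 1 ∨ l.getD i 0 = -1)
    (hc : ∑ i ∈ range 127, l.getD i 0 * l.getD i 0 = 64)
    (hs : ∀ s ∈ range 127, s ≠ 0 → ∑ i ∈ range 127, l.getD ((i + s) % 127) 0 * l.getD i 0 = 0) :
    IsExtreme (supp l) := by
  refine ⟨fun t => ((l.getD t.val 0 : ℤ) : ℂ), ?_, ?_, ?_⟩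
  · intro x hx
    have hlt : x.val ∈ range 127 := mem_range.2 (ZMod.val_lt x)
    rw [mem_supp] at hx
    rcases h _ hlt with h0 | h0 | h0
    · exact absurd h0 hx
    · simp only [h0]; norm_num
    · simp only [h0]; norm_num
  · intro x hx
    rw [mem_supp, not_not] at hx
    simp only [hx]; norm_num
  · intro d
    have hcast : ∑ x : ZMod 127, ((l.getD (x + d).val 0 : ℤ) : ℂ) * conj ((l.getD x.val 0 : ℤ) : ℂ) =
        ((∑ x : ZMod 127, l.getD (x + d).val 0 * l.getD x.val 0 : ℤ) : ℂ) := by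
      push_cast
      refine Finset.sum_congr rfl fun x _ => ?_
      rw [map_intCast]
    show ∑ x : ZMod 127, ((l.getD (x + d).val 0 : ℤ) : ℂ) * conj ((l.getD x.val 0 : ℤ) : ℂ) = _
    rw [hcast]
    have hsum : ∑ x : ZMod 127, l.getD (x + d).val 0 * l.getD x.val 0 =
        ∑ i ∈ range 127, l.getD ((i + d.val) % 127) 0 * l.getD i 0 := by
      rw [← sumZ (fun i => l.getD ((i + d.val) % 127) 0 * l.getD i 0)]
      refine Finset.sum_congr rfl fun x _ => ?_
      rw [ZMod.val_add]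
    rw [hsum]
    by_cases hd : d = 0
    · subst hd
      rw [if_pos rfl, card_supp l h hc]
      have : ∑ i ∈ range 127, l.getD ((i + (0 : ZMod 127).val) % 127) 0 * l.getD i 0 = 64 := by
        rw [← hc]
        refine Finset.sum_congr rfl fun i hi => ?_
        rw [ZMod.val_zero, add_zero, Nat.mod_eq_of_lt (mem_range.1 hi)]
      rw [this]; norm_num
    · rw [if_neg hd, hs d.val (mem_range.2 (ZMod.val_lt d)) (by rwa [Ne, ZMod.val_eq_zero])]
      norm_num

/-- the number of `t` with `t` and `t + d` in `E` -/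
def rep (E : Finset (ZMod 127)) (d : ZMod 127) : ℕ := (univ.filter fun t => t ∈ E ∧ t + d ∈ E).card

theorem rep_supp (l : List ℤ) (h : ∀ i ∈ range 127, l.getD i 0 = 0 ∨ l.getD i 0 = 1 ∨ l.getD i 0 = -1)
    (d : ZMod 127) : (rep (supp l) d : ℤ) =
      ∑ i ∈ range 127, l.getD ((i + d.val) % 127) 0 ^ 2 * l.getD i 0 ^ 2 := by
  rw [← sumZ (fun i => l.getD ((i + d.val) % 127) 0 ^ 2 * l.getD i 0 ^ 2), rep, Finset.card_filter]
  push_cast
  refine Finset.sum_congr rfl fun x _ => ?_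
  rw [← ZMod.val_add, sq_eq l h x, sq_eq l h (x + d)]
  by_cases h1 : x ∈ supp l <;> by_cases h2 : x + d ∈ supp l <;> simp [h1, h2]

instance : Fact (Nat.Prime 127) := ⟨by norm_num⟩

theorem rep_image (E : Finset (ZMod 127)) (a b d : ZMod 127) (ha : a ≠ 0) :
    rep (E.image fun x => a * x + b) (a * d) = rep E d := by
  have hinj : Function.Injective (fun x : ZMod 127 => a * x + b) := by
    intro x y hxy
    have : a * x = a * y := add_right_cancel hxy
    exact mul_left_cancel₀ ha this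
  symm
  unfold rep
  refine Finset.card_bij (fun t _ => a * t + b) ?_ ?_ ?_
  · intro t ht
    rw [mem_filter] at ht ⊢
    refine ⟨mem_univ _, mem_image_of_mem _ ht.2.1, ?_⟩
    rw [mem_image]
    exact ⟨t + d, ht.2.2, by ring⟩
  · intro x _ y _ hxy
    exact hinj hxy
  · intro y hy
    rw [mem_filter] at hy
    obtain ⟨t, ht, rfl⟩ := mem_image.1 hy.2.1
    obtain ⟨u, hu, hu2⟩ := mem_image.1 hy.2.2
    refine ⟨t, ?_, rfl⟩
    rw [mem_filter]
    refine ⟨mem_univ _, ht, ?_⟩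
    have : u = t + d := by
      apply hinj
      simp only
      rw [hu2]; ring
    rw [← this]; exact hu

/-- In `Z_127` there are two extreme sets with `64` elements each that are not equivalent. -/
theorem result : Nat.Prime 127 ∧ ∃ E F : Finset (ZMod 127), E.card = 64 ∧ F.card = 64 ∧
    IsExtreme E ∧ IsExtreme F ∧
    ∀ a b : ZMod 127, a ≠ 0 → F ≠ E.image (fun x => a * x + b) := by
  refine ⟨by norm_num, supp v, supp w, card_supp v v_vals v_card, card_supp w w_vals w_card,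
    extreme_supp v v_vals v_card v_corr, extreme_supp w w_vals w_card w_corr, ?_⟩
  intro a b ha hF
  have h1 : (rep (supp w) 3 : ℤ) = 28 := by
    rw [rep_supp w w_vals]
    exact w_diff
  have h2 : (rep (supp w) 3 : ℤ) = 32 := by
    rw [hF]
    have : (3 : ZMod 127) = a * (a⁻¹ * 3) := by
      rw [← mul_assoc, mul_inv_cancel₀ ha, one_mul]
    rw [this, rep_image _ a b _ ha, rep_supp v v_vals]
    refine v_diff _ (mem_range.2 (ZMod.val_lt _)) ?_
    rw [Ne, ZMod.val_eq_zero]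
    exact mul_ne_zero (inv_ne_zero ha) (by decide)
  rw [h1] at h2
  norm_num at h2

end Pool.Agent.Results.MP_6d480e_an.TwoClasses
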