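import Pool.Agent.Q167.WV.Riesz

/-!
# MP_38bcdd_an, Q1 (negated form): a non-orthogonal Riesz wavelet set of `ℝ` that is not a
multiplicative multi-tiling
-/

set_option autoImplicit false

open MeasureTheory Filter Topology Set
open scoped ComplexConjugate InnerProductSpace ENNReal FourierTransform
open Pool.Agent.Helper704 Pool.Agent.Helper704.RW Pool.Agent.Q167.WV

namespace Pool.Agent.Results.MP_38bcdd_an.NotMultiTiling

/-- The two Riesz inequalities with constants `A` and `B`. -/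
def RieszBounds {ι H : Type} [NormedAddCommGroup H] [NormedSpace ℂ H] (w : ι → H) (A B : ℝ) : Prop :=
  ∀ (s : Finset ι) (c : ι → ℂ),
    A * ∑ i ∈ s, ‖c i‖ ^ 2 ≤ ‖∑ i ∈ s, c i • w i‖ ^ 2 ∧
    ‖∑ i ∈ s, c i • w i‖ ^ 2 ≤ B * ∑ i ∈ s, ‖c i‖ ^ 2

/-- The family `w` is a Riesz basis: it is complete and satisfies the two Riesz inequalities. -/
def IsRieszBasis {ι H : Type} [NormedAddCommGroup H] [NormedSpace ℂ H] (w : ι → H) : Prop :=
  (∃ A B : ℝ, 0 < A ∧ 0 < B ∧ RieszBounds w A B) ∧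
  (Submodule.span ℂ (Set.range w)).topologicalClosure = ⊤

/-- `Ω_b = (-1,-b) ∪ (b,1)` -/
def Omega (b : ℝ) : Set ℝ := Ioo (-1) (-b) ∪ Ioo b 1

/-- the Fourier transform of `ψ` is the indicator function of `Ω` -/
def HatIs (ψ : Lp ℂ 2 (volume : Measure ℝ)) (Ω : Set ℝ) : Prop :=
  ((𝓕 ψ : Lp ℂ 2 (volume : Measure ℝ)) : ℝ → ℂ) =ᵐ[volume] Ω.indicator 1

/-- `w (j, k)` is the function `x ↦ 2^{j/2} ψ(2^j x - k)` -/
def IsSystem (ψ : Lp ℂ 2 (volume : Measure ℝ)) (w : ℤ × ℤ → Lp ℂ 2 (volume : Measure ℝ)) : Prop :=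
  ∀ p : ℤ × ℤ, (w p : ℝ → ℂ) =ᵐ[volume]
    fun x => ((Real.sqrt ((2 : ℝ) ^ p.1) : ℝ) : ℂ) * ψ ((2 : ℝ) ^ p.1 * x - p.2)

/-- some two different members of the family are not orthogonal -/
def NotOrthogonal (w : ℤ × ℤ → Lp ℂ 2 (volume : Measure ℝ)) : Prop := ∃ p q, p ≠ q ∧ ⟪w p, w q⟫_ℂ ≠ 0

/-- the sets `2^j Ω`, `j ∈ ℤ`, form a multiplicative tiling of `ℝ` with multiplicity `k` -/
def MultiTiling (Ω : Set ℝ) (k : ℕ) : Prop :=
  ∀ᵐ ξ : ℝ, ∑' j : ℤ, ((fun x => (2 : ℝ) ^ j * x) '' Ω).indicator (1 : ℝ → ℝ≥0∞) ξ = k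

theorem mem_Om {b x : ℝ} (hb : 0 < b) : x ∈ Om b ↔ b < |x| ∧ |x| < 1 := by
  rw [Q167.WV.Om, mem_union, mem_Ioo, mem_Ioo]
  constructor
  · rintro (⟨h1, h2⟩ | ⟨h1, h2⟩)
    · rw [abs_of_neg (by linarith)]
      constructor <;> linarith
    · rw [abs_of_pos (by linarith)]
      constructor <;> linarith
  · rintro ⟨h1, h2⟩
    rcases le_total 0 x with h | h
    · rw [abs_of_nonneg h] at h1 h2
      exact Or.inr ⟨h1, h2⟩
    · rw [abs_of_nonpos h] at h1 h2
      exact Or.inl ⟨by linarith, by linarith⟩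

theorem mem_img {b ξ : ℝ} (hb : 0 < b) (j : ℤ) :
    ξ ∈ (fun x => (2 : ℝ) ^ j * x) '' (Om b) ↔ b * 2 ^ j < |ξ| ∧ |ξ| < 2 ^ j := by
  have hL := two_zpow_pos j
  constructor
  · rintro ⟨x, hx, rfl⟩
    rw [mem_Om hb] at hx
    simp only
    rw [abs_mul, abs_of_pos hL]
    exact ⟨by rw [mul_comm]; exact mul_lt_mul_of_pos_left hx.1 hL, by nlinarith [hx.2]⟩
  · rintro ⟨h1, h2⟩
    refine ⟨ξ / 2 ^ j, ?_, by simp only; field_simp⟩
    rw [mem_Om hb, abs_div, abs_of_pos hL, lt_div_iff₀ hL, div_lt_one hL]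
    exact ⟨h1, h2⟩

theorem ae_exists {P : ℝ → Prop} (h : ∀ᵐ ξ : ℝ, P ξ) {a b : ℝ} (hab : a < b) : ∃ ξ ∈ Ioo a b, P ξ := by
  by_contra hc
  push Not at hc
  have h1 : volume (Ioo a b) ≤ volume {ξ | ¬ P ξ} := measure_mono fun x hx => hc x hx
  rw [ae_iff.1 h, Real.volume_Ioo, nonpos_iff_eq_zero, ENNReal.ofReal_eq_zero] at h1
  linarith

theorem result (b : ℝ) (hb : 1 / 3 ≤ b) (hb' : b < 1 / 2) :
    ∃ ψ w, HatIs ψ (Omega b) ∧ IsSystem ψ w ∧ IsRieszBasis w ∧ NotOrthogonal w ∧ ¬ ∃ k, MultiTiling (Omega b) k := by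
  have hb0 : 0 < b := by linarith
  set vA : HH := (memLp_SA hb0 hb').toLp _ with hvA
  set vB : HH := (memLp_SB hb0).toLp _ with hvB
  set vR : HH := (memLp_SR hb0).toLp _ with hvR
  set vO : HH := (memLp_Om hb0).toLp _ with hvO
  have eS : memLp_SS.toLp _ = vA + vB := by
    rw [Lp.ext_iff]
    filter_upwards [memLp_SS.coeFn_toLp, (memLp_SA hb0 hb').coeFn_toLp, (memLp_SB hb0).coeFn_toLp,
      Lp.coeFn_add vA vB] with x h1 h2 h3 h4
    rw [h1, h4, Pi.add_apply, h2, h3]
    have hSS : x ∈ SS ↔ 1 / 2 < |x| ∧ |x| < 1 := by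
      rw [SS, mem_union, mem_Ioo, mem_Ioo]
      constructor
      · rintro (⟨h1, h2⟩ | ⟨h1, h2⟩)
        · rw [abs_of_neg (by linarith)]
          constructor <;> linarith
        · rw [abs_of_pos (by linarith)]
          constructor <;> linarith
      · rintro ⟨h1, h2⟩
        rcases le_total 0 x with h | h
        · rw [abs_of_nonneg h] at h1 h2
          exact Or.inr ⟨h1, h2⟩
        · rw [abs_of_nonpos h] at h1 h2
          exact Or.inl ⟨by linarith, by linarith⟩
    by_cases hA : x ∈ SA b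
    · have hA' := mem_SA.1 hA
      rw [indicator_of_mem hA, indicator_of_mem (hSS.2 ⟨hA'.1, by linarith [hA'.2]⟩),
        indicator_of_notMem (fun h => absurd ((mem_SB hb0).1 h).1 (not_lt.2 hA'.2))]
      simp
    · by_cases hB : x ∈ SB b
      · have hB' := (mem_SB hb0).1 hB
        rw [indicator_of_notMem hA, indicator_of_mem hB, indicator_of_mem (hSS.2 ⟨by linarith [hB'.1], hB'.2⟩)]
        simp
      · rw [indicator_of_notMem hA, indicator_of_notMem hB, indicator_of_notMem]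
        · simp
        · intro h
          rw [hSS] at h
          rcases le_or_gt |x| (2 * b) with h5 | h5
          · exact hA (mem_SA.2 ⟨h.1, h5⟩)
          · exact hB ((mem_SB hb0).2 ⟨h5, h.2⟩)
  have eO : vO = ((1 : ℝ) : ℂ) • vA + vB + vR := by
    rw [Complex.ofReal_one, one_smul]
    rw [Lp.ext_iff]
    have hc : ({1 / 2, -(1 / 2)} : Set ℝ).Countable := (countable_singleton _).insert _
    filter_upwards [(memLp_Om hb0).coeFn_toLp, (memLp_SA hb0 hb').coeFn_toLp, (memLp_SB hb0).coeFn_toLp,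
      (memLp_SR hb0).coeFn_toLp, Lp.coeFn_add vA vB, Lp.coeFn_add (vA + vB) vR, hc.ae_notMem volume]
      with x h1 h2 h3 h4 h5 h6 h7
    rw [h1, h6, Pi.add_apply, h5, Pi.add_apply, h2, h3, h4]
    have hx : |x| ≠ 1 / 2 := by
      intro h
      apply h7
      rcases abs_choice x with h8 | h8
      · left; rw [← h, h8]
      · right; rw [mem_singleton_iff, ← h, h8, neg_neg]
    by_cases hA : x ∈ SA b
    · have hA' := mem_SA.1 hA
      rw [indicator_of_mem hA, indicator_of_mem ((mem_Om hb0).2 ⟨by linarith [hA'.1], by linarith [hA'.2]⟩),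
        indicator_of_notMem (fun h => absurd ((mem_SB hb0).1 h).1 (not_lt.2 hA'.2)),
        indicator_of_notMem (fun h => by linarith [((mem_SR hb0).1 h).2, hA'.1])]
      simp
    · by_cases hB : x ∈ SB b
      · have hB' := (mem_SB hb0).1 hB
        rw [indicator_of_notMem hA, indicator_of_mem hB, indicator_of_mem ((mem_Om hb0).2 ⟨by linarith [hB'.1], hB'.2⟩),
          indicator_of_notMem (fun h => by linarith [((mem_SR hb0).1 h).2, hB'.1])]
        simp
      · by_cases hR : x ∈ SR b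
        · have hR' := (mem_SR hb0).1 hR
          rw [indicator_of_notMem hA, indicator_of_notMem hB, indicator_of_mem hR,
            indicator_of_mem ((mem_Om hb0).2 ⟨hR'.1, by linarith [hR'.2]⟩)]
          simp
        · rw [indicator_of_notMem hA, indicator_of_notMem hB, indicator_of_notMem hR, indicator_of_notMem]
          · simp
          · intro h
            rw [mem_Om hb0] at h
            rcases le_or_gt |x| (2 * b) with h8 | h8
            · rcases lt_or_gt_of_ne hx with h9 | h9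
              · exact hR ((mem_SR hb0).2 ⟨h.1, h9⟩)
              · exact hA (mem_SA.2 ⟨h9, h8⟩)
            · exact hB ((mem_SB hb0).2 ⟨h8, h.2⟩)
  have hab : ∀ p q, ⟪Dh p vA, Dh q vB⟫_ℂ = 0 := by
    refine orth_Dh (memLp_SA hb0 hb') (memLp_SB hb0) fun ξ i j h1 h2 => ?_
    rw [mem_SA] at h1
    rw [mem_SB hb0] at h2
    refine ratio (i := i) (j := j) (ξ := ξ) 0 ?_ ?_
    · rw [zpow_zero]; linarith
    · rw [zp1, zpow_zero]; linarith
  have hah : ∀ p q, ⟪Dh p vA, Dh q vR⟫_ℂ = 0 := by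
    refine orth_Dh (memLp_SA hb0 hb') (memLp_SR hb0) fun ξ i j h1 h2 => ?_
    rw [mem_SA] at h1
    rw [mem_SR hb0] at h2
    refine ratio (i := i) (j := j) (ξ := ξ) (-1) ?_ ?_
    · rw [zpow_neg, zpow_one]; linarith
    · rw [show (-1 : ℤ) + 1 = 0 by norm_num, zpow_zero]; linarith
  have he : Orthonormal ℂ (fun p => Dh p vA + Dh p vB) := by
    have : (fun p => Dh p vA + Dh p vB) = fun p => Dh p (memLp_SS.toLp _) := by
      funext p; rw [eS, map_add]
    rw [this]
    exact orthonormal_eS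
  have hd : ∀ x : HH, ∀ η : ℝ, 0 < η → ∃ (s : Finset (ℤ × ℤ)) (c : ℤ × ℤ → ℂ),
      ‖x - ∑ p ∈ s, c p • (Dh p vA + Dh p vB)‖ < η := by
    intro x η hη
    obtain ⟨s, c, h⟩ := dense_eS x η hη
    refine ⟨s, c, ?_⟩
    simp_rw [← map_add, ← eS]
    exact h
  have hh := energy_le hb0 hb hb'
  obtain ⟨A, B, hA, hB, hAB⟩ := riesz_bounds (fun p => Dh p vA) (fun p => Dh p vB) (fun p => Dh p vR)
    hab hah he 1 zero_le_one hh 1 one_pos
  have hds := dense_span (fun p => Dh p vA) (fun p => Dh p vB) (fun p => Dh p vR)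
    hab hah hd 1 zero_le_one hh 1 one_pos
  have hDO : ∀ p, ((1 : ℝ) : ℂ) • Dh p vA + Dh p vB + Dh p vR = Dh p vO := by
    intro p
    rw [eO, map_add, map_add, map_smul]
  simp_rw [hDO] at hAB hds
  set ψ : HH := 𝓕⁻ vO with hψ
  have hFψ : 𝓕 ψ = vO := FourierTransform.fourier_fourierInv_eq vO
  have hFD : ∀ p, 𝓕 (Ds p ψ) = Dh p vO := fun p => by rw [fourier_Ds, hFψ]
  refine ⟨ψ, fun p => Ds p ψ, ?_, fun p => ?_, ⟨⟨A, B, hA, hB, fun s c => ?_⟩, ?_⟩, ?_, ?_⟩
  · rw [HatIs, hFψ]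
    exact (memLp_Om hb0).coeFn_toLp
  · filter_upwards [coeFn_wco (dy p.1) (p.2 : ℝ) (wT (dy p.1)) (wt_wT _) ψ] with x hx
    change (wco (dy p.1) (p.2 : ℝ) (wT (dy p.1)) (wt_wT _) ψ : ℝ → ℂ) x = _
    rw [hx, wT, adet_dy, dy_apply]
  · have h1 : ‖∑ p ∈ s, c p • Ds p ψ‖ = ‖∑ p ∈ s, c p • Dh p vO‖ := by
      rw [← Lp.norm_fourier_eq (∑ p ∈ s, c p • Ds p ψ)]
      have e1 : ∀ v : HH, 𝓕 v = Lp.fourierTransformₗᵢ ℝ ℂ v := fun v => rfl
      rw [e1, map_sum]
      congr 1
      refine Finset.sum_congr rfl fun p _ => ?_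
      rw [map_smul, ← e1, hFD]
    simp only
    rw [h1]
    exact hAB s c
  · rw [Submodule.topologicalClosure_eq_top_iff, Submodule.eq_bot_iff]
    intro u hu
    rw [Submodule.mem_orthogonal] at hu
    rw [Submodule.topologicalClosure_eq_top_iff, Submodule.eq_bot_iff] at hds
    have h2 : (𝓕 u : HH) = 0 := by
      refine hds _ ?_
      rw [Submodule.mem_orthogonal]
      intro v hv
      induction hv using Submodule.span_induction with
      | mem v hv =>
        obtain ⟨p, rfl⟩ := hv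
        simp only
        rw [← hFD, Lp.inner_fourier_eq]
        exact hu _ (Submodule.subset_span ⟨p, rfl⟩)
      | zero => rw [inner_zero_left]
      | add x y _ _ hx hy => rw [inner_add_left, hx, hy, add_zero]
      | smul a x _ hx => rw [inner_smul_left, hx, mul_zero]
    have h3 : ‖u‖ = 0 := by rw [← Lp.norm_fourier_eq, h2, norm_zero]
    exact norm_eq_zero.1 h3
  · refine ⟨(0, 0), (1, 0), by simp, ?_⟩
    simp only
    rw [← Lp.inner_fourier_eq, hFD, hFD, hvO, inner_Dh (memLp_Om hb0), Dh_toLp]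
    have h1 : ∫ ξ, conj (fq (0, 0) ((Om b).indicator 1) ξ) * ((memLp_fq (1, 0) (memLp_Om hb0)).toLp _ : HH) ξ =
        ∫ ξ, ((Real.sqrt ((2 : ℝ) ^ (-1 : ℤ)) : ℝ) : ℂ) * (SB b).indicator 1 ξ := by
      refine integral_congr_ae ?_
      filter_upwards [(memLp_fq (1, 0) (memLp_Om hb0)).coeFn_toLp] with ξ hξ
      rw [hξ, fq, fq]
      have e0 : ∀ η : ℝ, ex 0 η = 1 := by
        intro η
        rw [ex]
        simp
      simp only [e0, neg_zero, zpow_zero, Real.sqrt_one, Complex.ofReal_one, one_mul, mul_one]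
      by_cases h : ξ ∈ SB b
      · have h' := (mem_SB hb0).1 h
        rw [indicator_of_mem h, indicator_of_mem ((mem_Om hb0).2 ⟨by linarith [h'.1], h'.2⟩), indicator_of_mem]
        · simp
        · rw [mem_Om hb0, abs_mul, zpow_neg, zpow_one, abs_of_pos (by norm_num : (0 : ℝ) < 2⁻¹)]
          exact ⟨by linarith [h'.1], by linarith [h'.2]⟩
      · rw [indicator_of_notMem h]
        by_cases h1 : ξ ∈ Om b
        · by_cases h2 : (2 : ℝ) ^ (-1 : ℤ) * ξ ∈ Om b
          · exfalso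
            apply h
            rw [mem_Om hb0] at h1 h2
            rw [abs_mul, zpow_neg, zpow_one, abs_of_pos (by norm_num : (0 : ℝ) < 2⁻¹)] at h2
            rw [mem_SB hb0]
            exact ⟨by linarith [h2.1], h1.2⟩
          · rw [indicator_of_notMem h2]; simp
        · rw [indicator_of_notMem h1]; simp
    rw [h1, integral_const_mul,
      show (∫ ξ, ((SB b).indicator 1 ξ : ℂ)) = ∫ ξ, (SB b).indicator (fun _ => (1 : ℂ)) ξ from rfl,
      integral_indicator_const _ (measurableSet_SB b), Complex.real_smul, mul_one]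
    refine mul_ne_zero ?_ ?_
    · rw [Complex.ofReal_ne_zero]
      positivity
    · rw [Complex.ofReal_ne_zero, measureReal_def, SB, measure_union ?_ measurableSet_Ioo, Real.volume_Ioo,
        Real.volume_Ioo, ← ENNReal.ofReal_add (by linarith) (by linarith), ENNReal.toReal_ofReal (by linarith)]
      · linarith
      · rw [disjoint_left]
        intro x h1 h2
        linarith [h1.2, h2.1]
  · rintro ⟨k, hk⟩
    have hk' : ∀ᵐ ξ : ℝ, ∑' j : ℤ, ((fun x => (2 : ℝ) ^ j * x) '' (Om b)).indicator (1 : ℝ → ℝ≥0∞) ξ = k := hk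
    obtain ⟨ξ, hξ, h1⟩ := ae_exists hk' (show (1 / 2 : ℝ) < 2 * b by linarith)
    obtain ⟨η, hη, h2⟩ := ae_exists hk' (show (2 * b : ℝ) < 1 by linarith)
    have hge : ∀ j : ℤ, 1 ≤ j → (2 : ℝ) ≤ 2 ^ j := by
      intro j hj
      have := zpow_le_zpow_right₀ (one_le_two : (1 : ℝ) ≤ 2) hj
      rwa [zpow_one] at this
    have hge2 : ∀ j : ℤ, 2 ≤ j → (4 : ℝ) ≤ 2 ^ j := by
      intro j hj
      have := zpow_le_zpow_right₀ (one_le_two : (1 : ℝ) ≤ 2) hj
      norm_num at this ⊢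
      exact this
    have hle : ∀ j : ℤ, j ≤ -1 → (2 : ℝ) ^ j ≤ 1 / 2 := by
      intro j hj
      have := zpow_le_zpow_right₀ (one_le_two : (1 : ℝ) ≤ 2) hj
      norm_num at this ⊢
      exact this
    have hξa : |ξ| = ξ := abs_of_pos (by linarith [hξ.1])
    have hηa : |η| = η := abs_of_pos (by linarith [hη.1])
    rw [tsum_eq_single 0] at h1
    · rw [indicator_of_mem] at h1
      · rw [tsum_eq_sum (s := {0, 1})] at h2
        · rw [Finset.sum_pair (by norm_num), indicator_of_mem, indicator_of_mem, ← h1] at h2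
          · norm_num at h2
          · rw [mem_img hb0, hηa, zpow_one]
            exact ⟨by linarith [hη.1], by linarith [hη.2]⟩
          · rw [mem_img hb0, hηa, zpow_zero]
            exact ⟨by linarith [hη.1], by linarith [hη.2]⟩
        · intro j hj
          rw [indicator_of_notMem]
          rw [mem_img hb0, hηa]
          rintro ⟨h3, h4⟩
          have hj' : j ≤ -1 ∨ 2 ≤ j := by
            by_contra h
            push Not at h
            apply hj
            have : j = 0 ∨ j = 1 := by omega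
            simpa using this
          rcases hj' with hj' | hj'
          · linarith [hle j hj', hη.1]
          · nlinarith [hge2 j hj', hη.2]
      · rw [mem_img hb0, hξa, zpow_zero]
        exact ⟨by linarith [hξ.1], by linarith [hξ.2]⟩
    · intro j hj
      rw [indicator_of_notMem]
      rw [mem_img hb0, hξa]
      rintro ⟨h3, h4⟩
      rcases (show j ≤ -1 ∨ 1 ≤ j by omega) with hj' | hj'
      · linarith [hle j hj', hξ.1]
      · nlinarith [hge j hj', hξ.2]

end Pool.Agent.Results.MP_38bcdd_an.NotMultiTiling
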